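import Mathlib

open MeasureTheory Set Filter Topology

namespace TH261PH

/-- Kronecker symbol. -/
noncomputable def kd {d : ℕ} (i j : Fin d) : ℝ := if i = j then 1 else 0

/-- The trace-free quadratic forms `x_i x_j - δ_{ij} |x|² / d`. -/
noncomputable def q {d : ℕ} (i j : Fin d) (x : EuclideanSpace ℝ (Fin d)) : ℝ :=
  x i * x j - kd i j / d * ‖x‖ ^ 2

/-- Their partial derivatives. -/
noncomputable def dq {d : ℕ} (i j l : Fin d) (x : EuclideanSpace ℝ (Fin d)) : ℝ :=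
  kd i l * x j + kd j l * x i - kd i j / d * (2 * x l)

/-- The family of fields `|x|^{2w} ∂_l q_{ij} + κ |x|^{2w-2} x_l q_{ij}`. -/
noncomputable def W {d : ℕ} (w κ : ℝ) (i j l : Fin d) (x : EuclideanSpace ℝ (Fin d)) : ℝ :=
  (‖x‖ ^ 2) ^ w * dq i j l x + κ * ((‖x‖ ^ 2) ^ (w - 1) * (x l * q i j x))

/-- `F` is differentiable at `x` with `l`-th partial derivative `c`. -/
def HP {d : ℕ} (F : EuclideanSpace ℝ (Fin d) → ℝ) (x : EuclideanSpace ℝ (Fin d)) (l : Fin d)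
    (c : ℝ) : Prop :=
  DifferentiableAt ℝ F x ∧ fderiv ℝ F x (EuclideanSpace.single l 1) = c

section

variable {d : ℕ} {F G : EuclideanSpace ℝ (Fin d) → ℝ} {x : EuclideanSpace ℝ (Fin d)} {l : Fin d}
  {a b : ℝ}

theorem HP.add (hF : HP F x l a) (hG : HP G x l b) : HP (fun y => F y + G y) x l (a + b) := by
  refine ⟨hF.1.add hG.1, ?_⟩
  rw [fderiv_fun_add hF.1 hG.1, ← hF.2, ← hG.2]
  rfl

theorem HP.sub (hF : HP F x l a) (hG : HP G x l b) : HP (fun y => F y - G y) x l (a - b) := by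
  refine ⟨hF.1.sub hG.1, ?_⟩
  rw [fderiv_fun_sub hF.1 hG.1, ← hF.2, ← hG.2]
  rfl

theorem HP.mul (hF : HP F x l a) (hG : HP G x l b) :
    HP (fun y => F y * G y) x l (a * G x + F x * b) := by
  refine ⟨hF.1.mul hG.1, ?_⟩
  rw [fderiv_fun_mul hF.1 hG.1, ← hF.2, ← hG.2]
  simp
  ring

theorem HP.const_mul (c : ℝ) (hF : HP F x l a) : HP (fun y => c * F y) x l (c * a) := by
  refine ⟨hF.1.const_mul c, ?_⟩
  rw [fderiv_const_mul hF.1, ← hF.2]
  rfl

theorem HP.coord (i : Fin d) : HP (fun y : EuclideanSpace ℝ (Fin d) => y i) x l (kd i l) := by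
  have h : HasFDerivAt (fun y : EuclideanSpace ℝ (Fin d) => y i)
      (EuclideanSpace.proj i : EuclideanSpace ℝ (Fin d) →L[ℝ] ℝ) x :=
    (EuclideanSpace.proj i : EuclideanSpace ℝ (Fin d) →L[ℝ] ℝ).hasFDerivAt
  refine ⟨h.differentiableAt, ?_⟩
  rw [h.fderiv]
  simp [kd, eq_comm]

theorem HP.normSq : HP (fun y : EuclideanSpace ℝ (Fin d) => ‖y‖ ^ 2) x l (2 * x l) := by
  have h := (hasStrictFDerivAt_norm_sq x).hasFDerivAt
  refine ⟨h.differentiableAt, ?_⟩
  rw [h.fderiv]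
  simp [EuclideanSpace.inner_single_right]

theorem HP.rpow (w : ℝ) (hx : x ≠ 0) :
    HP (fun y : EuclideanSpace ℝ (Fin d) => (‖y‖ ^ 2) ^ w) x l
      (2 * w * ((‖x‖ ^ 2) ^ (w - 1) * x l)) := by
  have h := (hasStrictFDerivAt_norm_sq x).hasFDerivAt
  have hne : ‖x‖ ^ 2 ≠ 0 := by positivity
  have h2 := h.rpow_const (p := w) (Or.inl hne)
  refine ⟨h2.differentiableAt, ?_⟩
  rw [h2.fderiv]
  simp [EuclideanSpace.inner_single_right]
  ring

theorem HP.q (i j : Fin d) : HP (TH261PH.q i j) x l (dq i j l x) := by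
  have h := ((HP.coord (x := x) (l := l) i).mul (HP.coord j)).sub
    ((HP.normSq (x := x) (l := l)).const_mul (kd i j / d))
  refine ⟨h.1, ?_⟩
  have h2 := h.2
  rw [show (fun y : EuclideanSpace ℝ (Fin d) => y i * y j - kd i j / d * ‖y‖ ^ 2)
    = TH261PH.q i j from rfl] at h2
  rw [h2]
  unfold dq
  ring

theorem HP.dq (i j m : Fin d) : HP (TH261PH.dq i j m) x l
    (kd i m * kd j l + kd j m * kd i l - kd i j / d * (2 * kd m l)) := by
  have h := (((HP.coord (x := x) (l := l) j).const_mul (kd i m)).add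
    ((HP.coord (x := x) (l := l) i).const_mul (kd j m))).sub
    (((HP.coord (x := x) (l := l) m).const_mul 2).const_mul (kd i j / d))
  exact h

end

section

variable {d : ℕ}

theorem sum_kd_mul (i : Fin d) (f : Fin d → ℝ) : ∑ l, kd i l * f l = f i := by
  simp [kd]

theorem sum_kd_mul' (i : Fin d) (f : Fin d → ℝ) : ∑ l, kd l i * f l = f i := by
  simp [kd]

theorem kd_comm (i j : Fin d) : kd i j = kd j i := by
  unfold kd
  simp [eq_comm]

theorem normSq_eq (x : EuclideanSpace ℝ (Fin d)) : ‖x‖ ^ 2 = ∑ l, x l * x l := by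
  rw [EuclideanSpace.norm_sq_eq]
  simp [sq]

theorem sum_x_dq (i j : Fin d) (x : EuclideanSpace ℝ (Fin d)) :
    ∑ l, x l * dq i j l x = 2 * q i j x := by
  have e : ∀ l, x l * dq i j l x
      = kd i l * (x l * x j) + kd j l * (x l * x i) - (kd i j / d * 2) * (x l * x l) := by
    intro l; unfold dq; ring
  simp only [e, Finset.sum_sub_distrib, Finset.sum_add_distrib, sum_kd_mul, ← Finset.mul_sum]
  rw [← normSq_eq]
  unfold q
  ring

theorem sum_ddq (hd : d ≠ 0) (i j : Fin d) :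
    ∑ l, (kd i l * kd j l + kd j l * kd i l - kd i j / d * (2 * kd l l)) = 0 := by
  have hd' : (d : ℝ) ≠ 0 := by exact_mod_cast hd
  simp only [Finset.sum_sub_distrib, Finset.sum_add_distrib, sum_kd_mul]
  have : ∀ l : Fin d, kd l l = 1 := fun l => by simp [kd]
  simp only [this]
  simp [kd_comm j i]
  field_simp
  ring

theorem HP.W {w κ : ℝ} {x : EuclideanSpace ℝ (Fin d)} (hx : x ≠ 0) (i j l : Fin d) :
    HP (TH261PH.W w κ i j l) x l
      ((2 * w * ((‖x‖ ^ 2) ^ (w - 1) * x l)) * TH261PH.dq i j l x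
        + (‖x‖ ^ 2) ^ w * (kd i l * kd j l + kd j l * kd i l - kd i j / d * (2 * kd l l))
        + κ * ((2 * (w - 1) * ((‖x‖ ^ 2) ^ (w - 1 - 1) * x l)) * (x l * TH261PH.q i j x)
          + (‖x‖ ^ 2) ^ (w - 1) * (kd l l * TH261PH.q i j x + x l * TH261PH.dq i j l x))) :=
  ((HP.rpow w hx).mul (HP.dq i j l)).add
    (((HP.rpow (w - 1) hx).mul ((HP.coord l).mul (HP.q i j))).const_mul κ)

/-- The divergence of the field away from the origin. -/
theorem div_W (hd : d ≠ 0) {w κ : ℝ} {x : EuclideanSpace ℝ (Fin d)} (hx : x ≠ 0) (i j : Fin d) :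
    ∑ l, fderiv ℝ (W w κ i j l) x (EuclideanSpace.single l 1)
      = (4 * w + κ * (2 * w + d)) * ((‖x‖ ^ 2) ^ (w - 1) * q i j x) := by
  have hs : 0 < ‖x‖ ^ 2 := by positivity
  have e : ∀ l, fderiv ℝ (W w κ i j l) x (EuclideanSpace.single l 1)
      = (2 * w * (‖x‖ ^ 2) ^ (w - 1) + κ * (‖x‖ ^ 2) ^ (w - 1)) * (x l * dq i j l x)
        + (‖x‖ ^ 2) ^ w * (kd i l * kd j l + kd j l * kd i l - kd i j / d * (2 * kd l l))
        + (κ * (2 * (w - 1) * (‖x‖ ^ 2) ^ (w - 1 - 1)) * q i j x) * (x l * x l)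
        + κ * ((‖x‖ ^ 2) ^ (w - 1) * q i j x) * kd l l := by
    intro l
    rw [(HP.W hx i j l).2]
    ring
  simp only [e, Finset.sum_add_distrib, ← Finset.mul_sum, sum_x_dq, sum_ddq hd]
  rw [← normSq_eq]
  have : ∑ l : Fin d, kd l l = d := by simp [kd]
  rw [this]
  have h1 : (‖x‖ ^ 2) ^ (w - 1) = (‖x‖ ^ 2) ^ (w - 1 - 1) * ‖x‖ ^ 2 := by
    conv_lhs => rw [show w - 1 = (w - 1 - 1) + 1 by ring]
    rw [Real.rpow_add_one hs.ne']
  rw [h1]
  ring

theorem sum_q_sq (hd : d ≠ 0) (x : EuclideanSpace ℝ (Fin d)) :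
    ∑ i, ∑ j, q i j x * q i j x = (1 - 1 / d) * (‖x‖ ^ 2 * ‖x‖ ^ 2) := by
  have hd' : (d : ℝ) ≠ 0 := by exact_mod_cast hd
  have hkk : ∀ i j : Fin d, kd i j * kd i j = kd i j := fun i j => by
    unfold kd; split_ifs <;> simp
  have e : ∀ i j, q i j x * q i j x
      = (x i * x i) * (x j * x j) - (2 / d * ‖x‖ ^ 2) * (kd i j * (x i * x j))
        + (1 / (d:ℝ) ^ 2 * (‖x‖ ^ 2 * ‖x‖ ^ 2)) * (kd i j * 1) := by
    intro i j
    unfold q
    have := hkk i j
    linear_combination (1 / (d:ℝ) ^ 2 * (‖x‖ ^ 2 * ‖x‖ ^ 2)) * this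
  have h4 : ∀ i : Fin d, ∑ j, kd i j = 1 := fun i => by simp [kd]
  simp only [e, Finset.sum_sub_distrib, Finset.sum_add_distrib, ← Finset.mul_sum, sum_kd_mul,
    ← Finset.sum_mul, mul_one, h4]
  rw [← normSq_eq]
  simp
  field_simp
  ring

theorem sum_dq_sq (hd : d ≠ 0) (x : EuclideanSpace ℝ (Fin d)) :
    ∑ i, ∑ j, ∑ l, dq i j l x * dq i j l x = (1 - 1 / d) * (2 * d + 4) * ‖x‖ ^ 2 := by
  have hd' : (d : ℝ) ≠ 0 := by exact_mod_cast hd
  have hkk : ∀ i j : Fin d, kd i j * kd i j = kd i j := fun i j => by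
    unfold kd; split_ifs <;> simp
  have e : ∀ i j l, dq i j l x * dq i j l x
      = kd i l * (x j * x j) + kd j l * (x i * x i) + (4 / (d:ℝ) ^ 2) * kd i j * (x l * x l)
        + 2 * (kd i l * (kd j l * (x i * x j)))
        - (4 / d) * kd i j * (kd i l * (x l * x j))
        - (4 / d) * kd i j * (kd j l * (x l * x i)) := by
    intro i j l
    unfold dq
    have h1 := hkk i j
    have h2 := hkk i l
    have h3 := hkk j l
    linear_combination (4 / (d:ℝ) ^ 2 * (x l * x l)) * h1 + (x j * x j) * h2 + (x i * x i) * h3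
  have e2 : ∀ i j, ∑ l, dq i j l x * dq i j l x
      = x j * x j + x i * x i + (4 / (d:ℝ) ^ 2) * ‖x‖ ^ 2 * kd i j
        + 2 * (kd i j * (x i * x j))
        - (4 / d) * (kd i j * (x i * x j))
        - (4 / d) * (kd i j * (x j * x i)) := by
    intro i j
    simp only [e, Finset.sum_sub_distrib, Finset.sum_add_distrib, ← Finset.mul_sum, sum_kd_mul]
    rw [← normSq_eq, kd_comm j i]
    ring
  simp only [e2, Finset.sum_sub_distrib, Finset.sum_add_distrib, ← Finset.mul_sum, sum_kd_mul]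
  have h4 : ∀ i : Fin d, ∑ j, kd i j = 1 := fun i => by simp [kd]
  simp only [h4]
  have h5 : ∑ i : Fin d, x i * ∑ _j : Fin d, x i = d * ‖x‖ ^ 2 := by
    simp only [Finset.mul_sum]
    rw [Finset.sum_comm]
    simp only [← normSq_eq]
    simp
  rw [h5]
  simp only [← normSq_eq, Finset.sum_const, Finset.card_univ, Fintype.card_fin, nsmul_eq_mul,
    mul_one]
  field_simp
  ring

/-- The Frobenius norm of the field is radial. -/
theorem sum_W_sq (hd : d ≠ 0) {w κ : ℝ} {x : EuclideanSpace ℝ (Fin d)} (hx : x ≠ 0) :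
    ∑ i, ∑ j, ∑ l, W w κ i j l x * W w κ i j l x
      = (1 - 1 / d) * (2 * d + (κ + 2) ^ 2) * (((‖x‖ ^ 2) ^ w) ^ 2 * ‖x‖ ^ 2) := by
  have hs : 0 < ‖x‖ ^ 2 := by positivity
  set s := ‖x‖ ^ 2 with hsdef
  set A := s ^ (w - 1) with hA
  have h1 : s ^ w = A * s := by
    rw [hA]
    conv_lhs => rw [show w = (w - 1) + 1 by ring]
    rw [Real.rpow_add_one hs.ne']
  have e : ∀ i j l, W w κ i j l x * W w κ i j l x
      = (A * s) ^ 2 * (dq i j l x * dq i j l x)
        + (2 * κ * (A * A * s)) * q i j x * (x l * dq i j l x)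
        + (κ ^ 2 * A ^ 2) * (q i j x * q i j x) * (x l * x l) := by
    intro i j l
    unfold W
    rw [← hsdef, ← hA, h1]
    ring
  have e2 : ∀ i j, ∑ l, W w κ i j l x * W w κ i j l x
      = (A * s) ^ 2 * (∑ l, dq i j l x * dq i j l x)
        + (4 * κ * (A * A * s) + κ ^ 2 * A ^ 2 * s) * (q i j x * q i j x) := by
    intro i j
    simp only [e, Finset.sum_add_distrib, ← Finset.mul_sum, sum_x_dq]
    rw [← normSq_eq, ← hsdef]
    ring
  simp only [e2, Finset.sum_add_distrib, ← Finset.mul_sum, sum_q_sq hd, sum_dq_sq hd]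
  rw [← hsdef, h1]
  ring

end

end TH261PH
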