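import Mathlib

open MeasureTheory Set Filter Topology

namespace TH261PH

/-- A compactly supported continuous vector field that is differentiable away from the origin and
whose divergence is integrable has total divergence zero. -/
theorem integral_div_eq_zero {m : ℕ}
    (Φ : Fin (m+1) → EuclideanSpace ℝ (Fin (m+1)) → ℝ)
    (Φ' : Fin (m+1) → EuclideanSpace ℝ (Fin (m+1)) → EuclideanSpace ℝ (Fin (m+1)) →L[ℝ] ℝ)
    (hc : ∀ i, Continuous (Φ i)) (hs : ∀ i, HasCompactSupport (Φ i))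
    (hd : ∀ i x, x ≠ 0 → HasFDerivAt (Φ i) (Φ' i x) x)
    (hi : Integrable (fun x => ∑ i, Φ' i x (EuclideanSpace.single i 1))) :
    ∫ x, ∑ i, Φ' i x (EuclideanSpace.single i 1) = 0 := by
  classical
  -- a common bound for the supports
  obtain ⟨R, hR0, hR⟩ : ∃ R : ℝ, 0 < R ∧ ∀ i x, R ≤ ‖x‖ → x ∉ tsupport (Φ i) := by
    have hK : IsCompact (⋃ i, tsupport (Φ i)) := isCompact_iUnion hs
    obtain ⟨R, hR⟩ := hK.isBounded.exists_norm_le
    refine ⟨|R| + 1, by positivity, fun i x hx hmem => ?_⟩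
    have := hR x (mem_iUnion.2 ⟨i, hmem⟩)
    have h2 := le_abs_self R
    linarith
  have hzero : ∀ i x, R ≤ ‖x‖ → Φ i x = 0 := fun i x hx =>
    image_eq_zero_of_notMem_tsupport (hR i x hx)
  have hzero' : ∀ i x, x ≠ 0 → R ≤ ‖x‖ → Φ' i x = 0 := by
    intro i x hx0 hx
    have h1 : Φ i =ᶠ[𝓝 x] fun _ => 0 := by
      have := (isClosed_tsupport (Φ i)).isOpen_compl.mem_nhds (hR i x hx)
      filter_upwards [this] with y hy
      exact image_eq_zero_of_notMem_tsupport hy
    have h2 : HasFDerivAt (Φ i) (0 : EuclideanSpace ℝ (Fin (m+1)) →L[ℝ] ℝ) x :=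
      (hasFDerivAt_const (0:ℝ) x).congr_of_eventuallyEq h1
    exact (hd i x hx0).unique h2
  set g : EuclideanSpace ℝ (Fin (m+1)) → ℝ := fun x => ∑ i, Φ' i x (EuclideanSpace.single i 1)
    with hg
  have hgz : ∀ x, R ≤ ‖x‖ → g x = 0 := by
    intro x hx
    have hx0 : x ≠ 0 := by
      rintro rfl
      simp at hx
      linarith
    simp [hg, hzero' _ x hx0 hx]
  -- pass to the product space
  have hvp := PiLp.volume_preserving_toLp (Fin (m+1))
  have hme : MeasurableEmbedding (@WithLp.toLp 2 (Fin (m+1) → ℝ)) :=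
    (MeasurableEquiv.toLp 2 (Fin (m+1) → ℝ)).measurableEmbedding
  have hint : ∫ x, g x = ∫ y : Fin (m+1) → ℝ, g (WithLp.toLp 2 y) :=
    (hvp.integral_comp hme g).symm
  rw [hint]
  have hbox : ∫ y : Fin (m+1) → ℝ, g (WithLp.toLp 2 y)
      = ∫ y in Icc (fun _ : Fin (m+1) => -R) (fun _ => R), g (WithLp.toLp 2 y) := by
    symm
    apply setIntegral_eq_integral_of_forall_compl_eq_zero
    intro y hy
    apply hgz
    by_contra hlt
    push Not at hlt
    apply hy
    have hc : ∀ i, |y i| ≤ R := by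
      intro i
      have := PiLp.norm_apply_le (WithLp.toLp 2 y : EuclideanSpace ℝ (Fin (m+1))) i
      simp only [Real.norm_eq_abs] at this
      linarith
    exact ⟨fun i => (abs_le.1 (hc i)).1, fun i => (abs_le.1 (hc i)).2⟩
  rw [hbox]
  set L : (Fin (m+1) → ℝ) ≃L[ℝ] EuclideanSpace ℝ (Fin (m+1)) :=
    (EuclideanSpace.equiv (Fin (m+1)) ℝ).symm with hL
  have hLapp : ∀ y, L y = WithLp.toLp 2 y := fun y => rfl
  have key := integral_divergence_of_hasFDerivAt_off_countable'
    (fun _ : Fin (m+1) => -R) (fun _ => R) (fun _ => by simp; linarith)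
    (fun i y => Φ i (WithLp.toLp 2 y))
    (fun i y => (Φ' i (WithLp.toLp 2 y)).comp (L : (Fin (m+1) → ℝ) →L[ℝ] EuclideanSpace ℝ (Fin (m+1))))
    {0} (countable_singleton _)
    (fun i => ((hc i).comp L.continuous).continuousOn)
    (by
      intro y hy i
      have hy0 : (WithLp.toLp 2 y : EuclideanSpace ℝ (Fin (m+1))) ≠ 0 := by
        intro h0
        apply hy.2
        have : L y = 0 := h0
        simpa using this
      exact (hd i _ hy0).comp y L.hasFDerivAt)
    (by
      have : Integrable (fun y : Fin (m+1) → ℝ => g (WithLp.toLp 2 y)) :=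
        (hvp.integrable_comp_emb hme).2 hi
      refine this.integrableOn.congr_fun ?_ measurableSet_Icc
      intro y _
      simp [hg, hLapp])
  have hsum : ∀ y : Fin (m+1) → ℝ, ∑ i, ((Φ' i (WithLp.toLp 2 y)).comp
      (L : (Fin (m+1) → ℝ) →L[ℝ] EuclideanSpace ℝ (Fin (m+1)))) (Pi.single i 1)
      = g (WithLp.toLp 2 y) := by
    intro y
    simp [hg, hLapp]
  simp only [hsum] at key
  rw [key]
  apply Finset.sum_eq_zero
  intro i _
  have hA : ∀ (c : ℝ), |c| = R → ∀ z : Fin m → ℝ,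
      Φ i (WithLp.toLp 2 (Fin.insertNth i c z)) = 0 := by
    intro c hc z
    apply hzero
    have := PiLp.norm_apply_le (WithLp.toLp 2 (Fin.insertNth i c z) :
      EuclideanSpace ℝ (Fin (m+1))) i
    simp only [Real.norm_eq_abs, Fin.insertNth_apply_same] at this
    linarith
  have h1 : ∀ z : Fin m → ℝ, Φ i (WithLp.toLp 2 (Fin.insertNth i R z)) = 0 :=
    hA R (abs_of_pos hR0)
  have h2 : ∀ z : Fin m → ℝ, Φ i (WithLp.toLp 2 (Fin.insertNth i (-R) z)) = 0 :=
    hA (-R) (by rw [abs_neg, abs_of_pos hR0])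
  simp [h1, h2]

end TH261PH
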