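import Mathlib

open MeasureTheory Set Filter Topology

namespace TH261PH

section

variable {X Y : Type*} [NormedAddCommGroup X] [NormedSpace ℝ X] [NormedAddCommGroup Y]
  [NormedSpace ℝ Y]

/-- A positively homogeneous map of degree `< 1` is not differentiable at the origin, unless it
vanishes. -/
theorem not_differentiableAt_of_hom {F : X → Y} {β : ℝ} (hβ1 : β < 1)
    (hF0 : F 0 = 0) (hF : ∀ t : ℝ, 0 < t → ∀ x, F (t • x) = t ^ β • F x) {e : X} (he : F e ≠ 0) :
    ¬ DifferentiableAt ℝ F 0 := by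
  intro hdiff
  have hO := hdiff.isBigO_sub
  obtain ⟨C, hC⟩ := hO.bound
  have hline : Tendsto (fun t : ℝ => t • e) (𝓝[>] 0) (𝓝 0) := by
    have : Tendsto (fun t : ℝ => t • e) (𝓝 0) (𝓝 ((0:ℝ) • e)) :=
      (continuous_id.smul continuous_const).tendsto 0
    rw [zero_smul] at this
    exact this.mono_left nhdsWithin_le_nhds
  have h1 : ∀ᶠ t : ℝ in 𝓝[>] 0, ‖F e‖ ≤ C * ‖e‖ * t ^ (1 - β) := by
    filter_upwards [hline.eventually hC, self_mem_nhdsWithin] with t ht ht0
    have ht0' : 0 < t := ht0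
    rw [hF0, sub_zero, sub_zero, hF t ht0', norm_smul, norm_smul, Real.norm_of_nonneg ht0'.le,
      Real.norm_of_nonneg (Real.rpow_nonneg ht0'.le _)] at ht
    have hpos : 0 < t ^ β := Real.rpow_pos_of_pos ht0' _
    have e1 : t = t ^ β * t ^ (1 - β) := by
      rw [← Real.rpow_add ht0']
      simp
    have e2 : C * (t * ‖e‖) = t ^ β * (C * ‖e‖ * t ^ (1 - β)) := by
      conv_lhs => rw [e1]
      ring
    rw [e2] at ht
    exact le_of_mul_le_mul_left ht hpos
  have h2 : Tendsto (fun t : ℝ => C * ‖e‖ * t ^ (1 - β)) (𝓝[>] 0) (𝓝 0) := by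
    have h3 : Tendsto (fun t : ℝ => t ^ (1 - β)) (𝓝[>] 0) (𝓝 0) := by
      have h4 : Tendsto (fun t : ℝ => t) (𝓝[>] (0:ℝ)) (𝓝 0) := tendsto_id.mono_left nhdsWithin_le_nhds
      have h5 := h4.rpow_const (p := 1 - β) (Or.inr (by linarith))
      rwa [Real.zero_rpow (by linarith)] at h5
    simpa using h3.const_mul (C * ‖e‖)
  have h6 : ‖F e‖ ≤ 0 := ge_of_tendsto h2 h1
  exact he (norm_le_zero_iff.1 h6)

end

section

variable {X Y : Type*} [NormedAddCommGroup X] [NormedSpace ℝ X] [FiniteDimensional ℝ X]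
  [MeasureSpace X] [BorelSpace X] [(volume : Measure X).IsAddHaarMeasure]
  [NormedAddCommGroup Y] [NormedSpace ℝ Y]

/-- Mean oscillation on a ball. -/
noncomputable def osc (F : X → Y) (z : X) (r : ℝ) : ℝ :=
  (⨍ x in Metric.ball z r, ‖F x - ⨍ y in Metric.ball z r, F y‖ ^ 2) ^ (1 / 2 : ℝ)

theorem average_ball_scale {Z : Type*} [NormedAddCommGroup Z] [NormedSpace ℝ Z] (g : X → Z)
    {θ : ℝ} (hθ : 0 < θ) (r : ℝ) :
    ⨍ x in Metric.ball (0 : X) (θ * r), g x = ⨍ x in Metric.ball (0 : X) r, g (θ • x) := by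
  rw [setAverage_eq, setAverage_eq, Measure.setIntegral_comp_smul_of_pos _ _ _ hθ,
    _root_.smul_ball hθ.ne', smul_zero, Real.norm_of_nonneg hθ.le, measureReal_def,
    Measure.addHaar_ball_mul_of_pos _ _ hθ, ENNReal.toReal_mul,
    ENNReal.toReal_ofReal (by positivity), smul_smul, mul_inv, measureReal_def]
  congr 1
  ring

theorem osc_scale {F : X → Y} {β : ℝ} (hF : ∀ t : ℝ, 0 < t → ∀ x, F (t • x) = t ^ β • F x)
    {θ : ℝ} (hθ : 0 < θ) (r : ℝ) : osc F 0 (θ * r) = θ ^ β * osc F 0 r := by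
  unfold osc
  have h1 : ⨍ y in Metric.ball (0 : X) (θ * r), F y = θ ^ β • ⨍ y in Metric.ball (0 : X) r, F y := by
    rw [average_ball_scale _ hθ]
    simp only [hF θ hθ]
    rw [setAverage_eq, setAverage_eq, integral_smul, smul_comm]
  rw [average_ball_scale _ hθ, h1]
  simp only [hF θ hθ, ← smul_sub, norm_smul, mul_pow]
  have h2 : ∀ m : Y, ⨍ x in Metric.ball (0 : X) r, ‖θ ^ β‖ ^ 2 * ‖F x - m‖ ^ 2
      = ‖θ ^ β‖ ^ 2 * ⨍ x in Metric.ball (0 : X) r, ‖F x - m‖ ^ 2 := by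
    intro m
    rw [setAverage_eq, setAverage_eq, integral_const_mul]
    simp only [smul_eq_mul]
    ring
  rw [h2, Real.mul_rpow (by positivity)
    (by rw [setAverage_eq]; exact smul_nonneg (by positivity) (integral_nonneg fun x => by positivity))]
  congr 1
  rw [← Real.sqrt_eq_rpow, Real.sqrt_sq (norm_nonneg _),
    Real.norm_of_nonneg (Real.rpow_nonneg hθ.le _)]

omit [NormedSpace ℝ X] [FiniteDimensional ℝ X] [BorelSpace X]
  [(volume : Measure X).IsAddHaarMeasure] in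
theorem osc_nonneg (F : X → Y) (z : X) (r : ℝ) : 0 ≤ osc F z r := by
  unfold osc
  apply Real.rpow_nonneg
  rw [setAverage_eq]
  exact smul_nonneg (by positivity) (integral_nonneg fun x => by positivity)

theorem osc_pos {F : X → Y} (hc : Continuous F) {β : ℝ} (hF0 : F 0 = 0)
    (hF : ∀ t : ℝ, 0 < t → ∀ x, F (t • x) = t ^ β • F x) {e : X} (he : F e ≠ 0) {r : ℝ}
    (hr : 0 < r) : 0 < osc F 0 r := by
  rcases (osc_nonneg F 0 r).lt_or_eq with h | h
  · exact h
  exfalso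
  unfold osc at h
  set m := ⨍ y in Metric.ball (0 : X) r, F y with hm
  have hvol : 0 < (volume : Measure X).real (Metric.ball (0 : X) r) := by
    rw [measureReal_def]
    exact ENNReal.toReal_pos (Metric.measure_ball_pos _ _ hr).ne' measure_ball_lt_top.ne
  have hnn : 0 ≤ ⨍ x in Metric.ball (0 : X) r, ‖F x - m‖ ^ 2 := by
    rw [setAverage_eq]
    exact smul_nonneg (by positivity) (integral_nonneg fun x => by positivity)
  have h1 : ⨍ x in Metric.ball (0 : X) r, ‖F x - m‖ ^ 2 = 0 :=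
    (Real.rpow_eq_zero hnn (by norm_num)).1 h.symm
  rw [setAverage_eq, smul_eq_mul, mul_eq_zero] at h1
  have h2 : ∫ x in Metric.ball (0 : X) r, ‖F x - m‖ ^ 2 = 0 := by
    rcases h1 with h1 | h1
    · exact absurd h1 (inv_pos.2 hvol).ne'
    · exact h1
  have hcont : Continuous fun x => ‖F x - m‖ ^ 2 := (hc.sub continuous_const).norm.pow 2
  have hint : IntegrableOn (fun x => ‖F x - m‖ ^ 2) (Metric.ball (0 : X) r) :=
    (hcont.continuousOn.integrableOn_compact (isCompact_closedBall (0 : X) r)).mono_set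
      Metric.ball_subset_closedBall
  rw [setIntegral_eq_zero_iff_of_nonneg_ae (Eventually.of_forall fun x => by positivity) hint] at h2
  have h3 := Measure.eqOn_open_of_ae_eq h2 Metric.isOpen_ball hcont.continuousOn
    continuous_const.continuousOn
  have h4 : ∀ x ∈ Metric.ball (0 : X) r, F x = m := by
    intro x hx
    have := h3 hx
    simp only [Pi.zero_apply] at this
    have h5 : ‖F x - m‖ = 0 := by
      exact pow_eq_zero_iff (by norm_num) |>.1 this
    exact sub_eq_zero.1 (norm_eq_zero.1 h5)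
  have h5 : m = 0 := by
    rw [← h4 0 (Metric.mem_ball_self hr), hF0]
  have he0 : e ≠ 0 := by
    rintro rfl
    exact he hF0
  have hne : 0 < ‖e‖ := norm_pos_iff.2 he0
  have ht : 0 < r / (2 * ‖e‖) := by positivity
  have h6 : (r / (2 * ‖e‖)) • e ∈ Metric.ball (0 : X) r := by
    rw [mem_ball_zero_iff, norm_smul, Real.norm_of_nonneg ht.le]
    field_simp
    linarith
  have h7 := h4 _ h6
  rw [hF _ ht, h5, smul_eq_zero] at h7
  rcases h7 with h7 | h7
  · exact (Real.rpow_pos_of_pos ht β).ne' h7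
  · exact he h7

/-- No linear decay of the mean oscillation around the origin. -/
theorem not_linear_decay {F : X → Y} (hc : Continuous F) {β : ℝ} (hβ1 : β < 1) (hF0 : F 0 = 0)
    (hF : ∀ t : ℝ, 0 < t → ∀ x, F (t • x) = t ^ β • F x) {e : X} (he : F e ≠ 0) {r : ℝ}
    (hr : 0 < r) (c : ℝ) (h : ∀ θ : ℝ, 0 < θ → θ ≤ 1 → osc F 0 (θ * r) ≤ c * θ * osc F 0 r) :
    False := by
  have hpos := osc_pos hc hF0 hF he hr
  have h1 : ∀ᶠ θ : ℝ in 𝓝[>] 0, 1 ≤ c * θ ^ (1 - β) := by
    have hI : Iio (1 : ℝ) ∈ 𝓝[>] (0 : ℝ) := nhdsWithin_le_nhds (Iio_mem_nhds one_pos)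
    filter_upwards [hI, self_mem_nhdsWithin] with θ hθ1 hθ0
    have hθ0' : 0 < θ := hθ0
    have := h θ hθ0' (le_of_lt hθ1)
    rw [osc_scale hF hθ0'] at this
    have h2 : θ ^ β ≤ c * θ := le_of_mul_le_mul_right this hpos
    have hp : 0 < θ ^ β := Real.rpow_pos_of_pos hθ0' _
    have e1 : c * θ = θ ^ β * (c * θ ^ (1 - β)) := by
      have : θ = θ ^ β * θ ^ (1 - β) := by
        rw [← Real.rpow_add hθ0']; simp
      conv_lhs => rw [this]
      ring
    rw [e1] at h2
    have h3 : θ ^ β * 1 ≤ θ ^ β * (c * θ ^ (1 - β)) := by rw [mul_one]; exact h2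
    exact le_of_mul_le_mul_left h3 hp
  have h2 : Tendsto (fun t : ℝ => c * t ^ (1 - β)) (𝓝[>] 0) (𝓝 0) := by
    have h3 : Tendsto (fun t : ℝ => t ^ (1 - β)) (𝓝[>] 0) (𝓝 0) := by
      have h4 : Tendsto (fun t : ℝ => t) (𝓝[>] (0:ℝ)) (𝓝 0) := tendsto_id.mono_left nhdsWithin_le_nhds
      have h5 := h4.rpow_const (p := 1 - β) (Or.inr (by linarith))
      rwa [Real.zero_rpow (by linarith)] at h5
    simpa using h3.const_mul c
  have h6 : (1:ℝ) ≤ 0 := ge_of_tendsto h2 h1
  linarith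

end

end TH261PH
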