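import Pool.Agent.TH261.PH.Alg
import Pool.Agent.TH261.PH.Div

open MeasureTheory Set Filter Topology

namespace TH261PH

section

variable {d : ℕ}

theorem abs_coord_le (x : EuclideanSpace ℝ (Fin d)) (i : Fin d) : |x i| ≤ ‖x‖ := by
  simpa using PiLp.norm_apply_le x i

theorem kd_nonneg (i j : Fin d) : 0 ≤ kd i j := by
  unfold kd; split_ifs <;> norm_num

theorem kd_le_one (i j : Fin d) : kd i j ≤ 1 := by
  unfold kd; split_ifs <;> norm_num

theorem kd_div_le_one (hd : d ≠ 0) (i j : Fin d) : kd i j / d ≤ 1 := by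
  have : (1 : ℝ) ≤ d := by exact_mod_cast Nat.one_le_iff_ne_zero.2 hd
  rw [div_le_one (by linarith)]
  exact (kd_le_one i j).trans this

theorem abs_q_le (hd : d ≠ 0) (i j : Fin d) (x : EuclideanSpace ℝ (Fin d)) :
    |q i j x| ≤ 2 * ‖x‖ ^ 2 := by
  have h1 : |x i * x j| ≤ ‖x‖ * ‖x‖ := by
    rw [abs_mul]
    exact mul_le_mul (abs_coord_le x i) (abs_coord_le x j) (abs_nonneg _) (norm_nonneg _)
  have h2 : |kd i j / d * ‖x‖ ^ 2| ≤ ‖x‖ ^ 2 := by
    rw [abs_of_nonneg (by have := kd_nonneg i j; positivity)]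
    exact mul_le_of_le_one_left (by positivity) (kd_div_le_one hd i j)
  unfold q
  calc _ ≤ |x i * x j| + |kd i j / d * ‖x‖ ^ 2| := abs_sub _ _
    _ ≤ _ := by nlinarith

theorem abs_dq_le (hd : d ≠ 0) (i j l : Fin d) (x : EuclideanSpace ℝ (Fin d)) :
    |dq i j l x| ≤ 4 * ‖x‖ := by
  have h1 : |kd i l * x j| ≤ ‖x‖ := by
    rw [abs_mul, abs_of_nonneg (kd_nonneg i l)]
    exact (mul_le_of_le_one_left (abs_nonneg _) (kd_le_one i l)).trans (abs_coord_le x j)
  have h2 : |kd j l * x i| ≤ ‖x‖ := by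
    rw [abs_mul, abs_of_nonneg (kd_nonneg j l)]
    exact (mul_le_of_le_one_left (abs_nonneg _) (kd_le_one j l)).trans (abs_coord_le x i)
  have h3 : |kd i j / d * (2 * x l)| ≤ 2 * ‖x‖ := by
    rw [abs_mul, abs_of_nonneg (by have := kd_nonneg i j; positivity), abs_mul]
    have := mul_le_of_le_one_left (abs_nonneg (2 * x l)) (kd_div_le_one hd i j)
    rw [abs_mul] at this
    refine this.trans ?_
    rw [abs_of_pos (by norm_num : (0:ℝ) < 2)]
    have := abs_coord_le x l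
    linarith
  unfold dq
  calc _ ≤ |kd i l * x j + kd j l * x i| + |kd i j / d * (2 * x l)| := abs_sub _ _
    _ ≤ |kd i l * x j| + |kd j l * x i| + |kd i j / d * (2 * x l)| := by
        have := abs_add_le (kd i l * x j) (kd j l * x i)
        linarith
    _ ≤ _ := by linarith

theorem sq_rpow {x : EuclideanSpace ℝ (Fin d)} (w : ℝ) :
    (‖x‖ ^ 2) ^ w = ‖x‖ ^ (2 * w) := by
  rw [Real.rpow_mul (norm_nonneg _)]
  norm_num

theorem W_zero (w κ : ℝ) (i j l : Fin d) : W w κ i j l 0 = 0 := by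
  simp [W, dq]

theorem abs_W_le (hd : d ≠ 0) (w κ : ℝ) (i j l : Fin d) {x : EuclideanSpace ℝ (Fin d)}
    (hx : x ≠ 0) : |W w κ i j l x| ≤ (4 + 2 * |κ|) * ‖x‖ ^ (2 * w + 1) := by
  have hpos : 0 < ‖x‖ := norm_pos_iff.2 hx
  have e1 : ‖x‖ ^ (2 * w + 1) = ‖x‖ ^ (2 * w) * ‖x‖ := by
    rw [Real.rpow_add_one hpos.ne']
  have e2 : ‖x‖ ^ (2 * w + 1) = ‖x‖ ^ (2 * (w - 1)) * (‖x‖ * ‖x‖ ^ 2) := by
    rw [show 2 * w + 1 = 2 * (w - 1) + (3 : ℕ) by push_cast; ring, Real.rpow_add_natCast hpos.ne']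
    ring
  have h1 : |(‖x‖ ^ 2) ^ w * dq i j l x| ≤ 4 * ‖x‖ ^ (2 * w + 1) := by
    rw [abs_mul, sq_rpow, abs_of_nonneg (by positivity), e1]
    have := mul_le_mul_of_nonneg_left (abs_dq_le hd i j l x)
      (Real.rpow_nonneg (norm_nonneg x) (2 * w))
    linarith
  have h2 : |κ * ((‖x‖ ^ 2) ^ (w - 1) * (x l * q i j x))| ≤ 2 * |κ| * ‖x‖ ^ (2 * w + 1) := by
    rw [abs_mul, abs_mul, sq_rpow, abs_of_nonneg (a := ‖x‖ ^ (2 * (w - 1))) (by positivity), abs_mul]
    have h3 : |x l| * |q i j x| ≤ ‖x‖ * (2 * ‖x‖ ^ 2) :=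
      mul_le_mul (abs_coord_le x l) (abs_q_le hd i j x) (abs_nonneg _) (norm_nonneg _)
    have h4 := mul_le_mul_of_nonneg_left h3 (Real.rpow_nonneg (norm_nonneg x) (2 * (w - 1)))
    have h5 := mul_le_mul_of_nonneg_left h4 (abs_nonneg κ)
    rw [e2]
    linarith
  unfold W
  refine (abs_add_le _ _).trans ?_
  linarith

theorem continuous_W (hd : d ≠ 0) {w κ : ℝ} (hw : 0 < 2 * w + 1) (i j l : Fin d) :
    Continuous (W w κ i j l) := by
  rw [continuous_iff_continuousAt]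
  intro x
  by_cases hx : x = 0
  · subst hx
    unfold ContinuousAt
    rw [W_zero]
    apply squeeze_zero_norm (a := fun x => (4 + 2 * |κ|) * ‖x‖ ^ (2 * w + 1))
    · intro x
      by_cases hx : x = 0
      · subst hx
        rw [W_zero]
        simp [Real.zero_rpow hw.ne']
      · exact abs_W_le hd w κ i j l hx
    · have h1 : Tendsto (fun x : EuclideanSpace ℝ (Fin d) => ‖x‖ ^ (2 * w + 1)) (𝓝 0) (𝓝 0) := by
        have h2 : Tendsto (fun x : EuclideanSpace ℝ (Fin d) => ‖x‖) (𝓝 0) (𝓝 0) := tendsto_norm_zero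
        have h3 := h2.rpow_const (p := 2 * w + 1) (Or.inr hw.le)
        rwa [Real.zero_rpow hw.ne'] at h3
      simpa using h1.const_mul (4 + 2 * |κ|)
  · exact (HP.W hx i j l).1.continuousAt

theorem W_smul {w κ : ℝ} (i j l : Fin d) (x : EuclideanSpace ℝ (Fin d)) {t : ℝ} (ht : 0 < t) :
    W w κ i j l (t • x) = t ^ (2 * w + 1) * W w κ i j l x := by
  have h0 : ‖t • x‖ ^ 2 = t ^ 2 * ‖x‖ ^ 2 := by
    rw [norm_smul, Real.norm_of_nonneg ht.le]; ring
  have hs : ∀ v : ℝ, (‖t • x‖ ^ 2) ^ v = t ^ (2 * v) * (‖x‖ ^ 2) ^ v := by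
    intro v
    rw [h0, Real.mul_rpow (by positivity) (by positivity), Real.rpow_mul ht.le]
    norm_num
  have hdq : dq i j l (t • x) = t * dq i j l x := by
    unfold dq; simp; ring
  have hq : q i j (t • x) = t ^ 2 * q i j x := by
    unfold q; rw [h0]; simp; ring
  unfold W
  rw [hs, hs, hdq, hq]
  have e1 : t ^ (2 * w + 1) = t ^ (2 * w) * t := by rw [Real.rpow_add_one ht.ne']
  have e2 : t ^ (2 * w + 1) = t ^ (2 * (w - 1)) * t ^ 3 := by
    rw [show 2 * w + 1 = 2 * (w - 1) + (3 : ℕ) by push_cast; ring, Real.rpow_add_natCast ht.ne']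
  rw [mul_add]
  congr 1
  · rw [e1]; ring
  · rw [e2]; simp; ring

theorem W_shift (w v κ : ℝ) (i j l : Fin d) {x : EuclideanSpace ℝ (Fin d)} (hx : x ≠ 0) :
    W (w + v) κ i j l x = (‖x‖ ^ 2) ^ v * W w κ i j l x := by
  have hs : 0 < ‖x‖ ^ 2 := by positivity
  unfold W
  rw [show w + v - 1 = (w - 1) + v by ring, Real.rpow_add hs, Real.rpow_add hs]
  ring

/-- The potential `|x|^{k-2} q_{ij}(x)`. -/
noncomputable def pot (k : ℝ) (i j : Fin d) (x : EuclideanSpace ℝ (Fin d)) : ℝ :=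
  (‖x‖ ^ 2) ^ ((k - 2) / 2) * q i j x

theorem HP.pot (hd : d ≠ 0) {k : ℝ} (hk : 2 < k) (i j l : Fin d) (x : EuclideanSpace ℝ (Fin d)) :
    HP (TH261PH.pot k i j) x l (TH261PH.W ((k - 2) / 2) (k - 2) i j l x) := by
  by_cases hx : x = 0
  · subst hx
    have h0 : HasFDerivAt (TH261PH.pot k i j) (0 : EuclideanSpace ℝ (Fin d) →L[ℝ] ℝ) 0 := by
      apply Asymptotics.IsBigO.hasFDerivAt (n := 2) _ (by norm_num)
      apply Asymptotics.IsBigO.of_bound 2
      have : Metric.ball (0 : EuclideanSpace ℝ (Fin d)) 1 ∈ 𝓝 0 := Metric.ball_mem_nhds _ one_pos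
      filter_upwards [this] with y hy
      rw [mem_ball_zero_iff] at hy
      rw [sub_zero, Real.norm_eq_abs, Real.norm_eq_abs, abs_of_nonneg (by positivity : 0 ≤ ‖y‖ ^ 2)]
      unfold TH261PH.pot
      rw [abs_mul, abs_of_nonneg (by positivity)]
      have h1 : (‖y‖ ^ 2) ^ ((k - 2) / 2) ≤ 1 := by
        apply Real.rpow_le_one (by positivity)
        · nlinarith [norm_nonneg y]
        · linarith
      calc _ ≤ 1 * |TH261PH.q i j y| := mul_le_mul_of_nonneg_right h1 (abs_nonneg _)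
        _ ≤ _ := by rw [one_mul]; exact abs_q_le hd i j y
    refine ⟨h0.differentiableAt, ?_⟩
    rw [h0.fderiv, W_zero]
    rfl
  · have h := (HP.rpow (l := l) ((k - 2) / 2) hx).mul (HP.q i j)
    refine ⟨h.1, ?_⟩
    have h2 := h.2
    rw [show (fun y : EuclideanSpace ℝ (Fin d) => (‖y‖ ^ 2) ^ ((k - 2) / 2) * TH261PH.q i j y)
      = TH261PH.pot k i j from rfl] at h2
    rw [h2]
    unfold TH261PH.W
    ring

/-- The exponent. -/
theorem exists_root {d : ℕ} (hd : 3 ≤ d) {p : ℝ} (hp1 : 1 < p) (hp2 : p < 2) :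
    ∃ k : ℝ, 2 < k ∧ k < 1 + 2 / p ∧ (p - 1) * k ^ 2 + (d - p) * k = 2 * d := by
  have hd3 : (3 : ℝ) ≤ d := by exact_mod_cast hd
  have hp0 : 0 < p := by linarith
  have hlt : (2 : ℝ) < 1 + 2 / p := by
    have : 1 < 2 / p := by rw [lt_div_iff₀ hp0]; linarith
    linarith
  have hcont : ContinuousOn (fun k : ℝ => (p - 1) * k ^ 2 + (d - p) * k) (Icc 2 (1 + 2 / p)) := by
    fun_prop
  have hmem : (2 * d : ℝ) ∈ Ioo ((p - 1) * 2 ^ 2 + (d - p) * 2)
      ((p - 1) * (1 + 2 / p) ^ 2 + (d - p) * (1 + 2 / p)) := by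
    constructor
    · linarith
    · have e : (p - 1) * (1 + 2 / p) ^ 2 + (d - p) * (1 + 2 / p) - 2 * d
          = (2 - p) * (d * p - p - 2) / p ^ 2 := by
        field_simp
        ring
      have : 0 < (2 - p) * (d * p - p - 2) / p ^ 2 := by
        apply div_pos (mul_pos (by linarith) _) (by positivity)
        nlinarith
      linarith
  obtain ⟨k, hk, hk2⟩ := intermediate_value_Ioo hlt.le hcont hmem
  exact ⟨k, hk.1, hk.2, hk2⟩

/-- The weak equation, one component at a time. -/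
theorem weak_eq_comp (hd : d ≠ 0) {w κ : ℝ} (hw : 0 < 2 * w + 1)
    (hdiv : 4 * w + κ * (2 * w + d) = 0) (i j : Fin d)
    (ψ : EuclideanSpace ℝ (Fin d) → ℝ) (hψ : ContDiff ℝ 1 ψ) (hc : HasCompactSupport ψ) :
    ∫ x, ∑ l, W w κ i j l x * fderiv ℝ ψ x (EuclideanSpace.single l 1) = 0 := by
  obtain ⟨m, rfl⟩ := Nat.exists_eq_succ_of_ne_zero hd
  have hψd : Differentiable ℝ ψ := hψ.differentiable (by norm_num)
  have hψc : Continuous (fderiv ℝ ψ) := hψ.continuous_fderiv (by norm_num)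
  set g : EuclideanSpace ℝ (Fin (m+1)) → ℝ :=
    fun x => ∑ l, W w κ i j l x * fderiv ℝ ψ x (EuclideanSpace.single l 1) with hg
  have hgc : Continuous g := by
    apply continuous_finsetSum
    intro l _
    exact (continuous_W hd hw i j l).mul (hψc.clm_apply continuous_const)
  have hgs : HasCompactSupport g := by
    have h1 : HasCompactSupport (fderiv ℝ ψ) := hc.fderiv (𝕜 := ℝ)
    refine h1.mono ?_
    intro x hx
    rw [Function.mem_support] at hx ⊢
    intro h0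
    apply hx
    simp [hg, h0]
  have hgi : Integrable g := hgc.integrable_of_hasCompactSupport hgs
  have key := integral_div_eq_zero (m := m) (fun l x => W w κ i j l x * ψ x)
    (fun l x => fderiv ℝ (fun y => W w κ i j l y * ψ y) x)
    (fun l => (continuous_W hd hw i j l).mul hψd.continuous)
    (fun l => hc.mul_left)
    (fun l x hx => ((HP.W hx i j l).1.mul (hψd x)).hasFDerivAt)
  have hae : (fun x => ∑ l, fderiv ℝ (fun y => W w κ i j l y * ψ y) x (EuclideanSpace.single l 1))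
      =ᵐ[volume] g := by
    have h0 : ∀ᵐ x : EuclideanSpace ℝ (Fin (m+1)), x ≠ 0 := by
      have := measure_singleton (μ := (volume : Measure (EuclideanSpace ℝ (Fin (m+1))))) 0
      exact compl_mem_ae_iff.2 this
    filter_upwards [h0] with x hx
    have e : ∀ l, fderiv ℝ (fun y => W w κ i j l y * ψ y) x (EuclideanSpace.single l 1)
        = ψ x * fderiv ℝ (W w κ i j l) x (EuclideanSpace.single l 1)
          + W w κ i j l x * fderiv ℝ ψ x (EuclideanSpace.single l 1) := by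
      intro l
      rw [fderiv_fun_mul (HP.W hx i j l).1 (hψd x)]
      simp
      ring
    simp only [e, Finset.sum_add_distrib, ← Finset.mul_sum, div_W hd hx, hdiv]
    simp [hg]
  have := key (hgi.congr hae.symm)
  rw [← integral_congr_ae hae]
  exact this

end

end TH261PH
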